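import Pool.Agent.K3h88.Loz.Stm

/-!
# Brick C1: sum of the Vandermonde products over the interlacing sets
-/

set_option autoImplicit false

namespace Pool.Agent.K3h33.Loz

open Finset Pool.Agent.K3h88.Loz

/-- binomial polynomials -/
noncomputable def bp (j : ℕ) (a : ℤ) : ℝ := (descPochhammer ℝ j).eval (a : ℝ) / (j.factorial : ℝ)

lemma bp_zero (a : ℤ) : bp 0 a = 1 := by simp [bp]

lemma bp_succ (j : ℕ) (a : ℤ) : bp (j + 1) (a + 1) - bp (j + 1) a = bp j a := by
  have h1 := congrArg (Polynomial.eval ((a : ℝ) + 1)) (descPochhammer_succ_comp_X_sub_one (R := ℝ) j)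
  rw [Polynomial.eval_comp] at h1
  simp only [Polynomial.eval_sub, Polynomial.eval_X, Polynomial.eval_one, add_sub_cancel_right,
    Polynomial.eval_comp, Polynomial.eval_mul,
    Polynomial.eval_natCast, Polynomial.eval_add, smul_eq_mul] at h1
  have hj : (((j + 1).factorial : ℕ) : ℝ) = ((j : ℝ) + 1) * (j.factorial : ℝ) := by
    rw [Nat.factorial_succ]; push_cast; ring
  have hf : (j.factorial : ℝ) ≠ 0 := Nat.cast_ne_zero.2 (Nat.factorial_ne_zero j)
  have hj1 : (j : ℝ) + 1 ≠ 0 := by positivity
  unfold bp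
  rw [hj]
  push_cast
  field_simp
  linarith

lemma sum_bp (j : ℕ) (a b : ℤ) (h : a ≤ b) :
    ∑ y ∈ Ico a b, bp j y = bp (j + 1) b - bp (j + 1) a := by
  induction b, h using Int.leInduction with
  | base => simp
  | succ b hb ih =>
    rw [← Finset.insert_Ico_right_eq_Ico_add_one hb, Finset.sum_insert (by simp), ih, ← bp_succ j b]
    ring

/-! ### The determinant formula -/

lemma vd_image {n : ℕ} (x : Fin n → ℤ) (hx : StrictMono x) :
    vd (univ.image x) = ∏ i : Fin n, ∏ j ∈ Ioi i, ((x j : ℝ) - (x i : ℝ)) := by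
  unfold vd
  rw [Finset.prod_sigma']
  symm
  refine Finset.prod_bij (fun (q : Σ _ : Fin n, Fin n) _ => (x q.1, x q.2)) ?_ ?_ ?_ ?_
  · rintro ⟨i, j⟩ hq
    simp only [mem_sigma, mem_univ, mem_Ioi, true_and] at hq
    simp only [mem_filter, mem_product, mem_image, mem_univ, true_and, exists_apply_eq_apply]
    exact hx hq
  · rintro ⟨i, j⟩ _ ⟨i', j'⟩ _ h
    simp only [Prod.mk.injEq] at h
    obtain ⟨h1, h2⟩ := h
    rw [hx.injective h1, hx.injective h2]
  · rintro ⟨a, b⟩ hq
    simp only [mem_filter, mem_product, mem_image, mem_univ, true_and] at hq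
    obtain ⟨⟨⟨i, rfl⟩, ⟨j, rfl⟩⟩, hlt⟩ := hq
    refine ⟨⟨i, j⟩, ?_, rfl⟩
    simp only [mem_sigma, mem_univ, mem_Ioi, true_and]
    exact hx.lt_iff_lt.1 hlt
  · rintro ⟨i, j⟩ _
    rfl

lemma tt_image {n : ℕ} (x : Fin n → ℤ) (hx : StrictMono x) :
    tt (univ.image x) = (Matrix.of fun i j : Fin n => bp j (x i)).det := by
  unfold tt
  rw [vd_image x hx, Finset.card_image_of_injective _ hx.injective, Finset.card_univ,
    Fintype.card_fin]
  have h1 := Matrix.det_eval_matrixOfPolynomials_eq_det_vandermonde (fun i : Fin n => (x i : ℝ))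
    (fun j => descPochhammer ℝ (j : ℕ)) (fun j => descPochhammer_natDegree ℝ _)
    (fun j => monic_descPochhammer ℝ _)
  rw [Matrix.det_vandermonde] at h1
  have h2 := Matrix.det_mul_row (fun j : Fin n => ((j : ℕ).factorial : ℝ)⁻¹)
    (Matrix.of fun i j : Fin n => (descPochhammer ℝ (j : ℕ)).eval (x i : ℝ))
  have h3 : (Matrix.of fun i j : Fin n => ((j : ℕ).factorial : ℝ)⁻¹ *
      (Matrix.of (fun i j : Fin n => (descPochhammer ℝ (j : ℕ)).eval (x i : ℝ))) i j) =
      Matrix.of fun i j : Fin n => bp j (x i) := by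
    ext i j
    simp only [Matrix.of_apply, bp]
    rw [div_eq_inv_mul]
  rw [h3] at h2
  rw [h2, ← h1, Finset.prod_inv_distrib]
  unfold sf
  rw [← Fin.prod_univ_eq_prod_range (fun i => (i.factorial : ℝ)), div_eq_inv_mul]

lemma det_step {k : ℕ} (x : Fin (k + 1) → ℤ) :
    (Matrix.of fun i j : Fin (k + 1) => bp j (x i)).det =
      (Matrix.of fun i j : Fin k => bp (j + 1) (x i.succ) - bp (j + 1) (x i.castSucc)).det := by
  set A : Matrix (Fin (k + 1)) (Fin (k + 1)) ℝ := Matrix.of fun i j => bp j (x i) with hA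
  set B : Matrix (Fin (k + 1)) (Fin (k + 1)) ℝ := Matrix.of fun i j =>
    Fin.cases (A 0 j) (fun i' => A i'.succ j - A i'.castSucc j) i with hB
  have h1 : A.det = B.det := by
    refine Matrix.det_eq_of_forall_row_eq_smul_add_pred (fun _ => 1) ?_ ?_
    · intro j
      rfl
    · intro i j
      change A i.succ j = (A i.succ j - A i.castSucc j) + 1 * A i.castSucc j
      ring
  rw [h1, Matrix.det_succ_column_zero, Fin.sum_univ_succ]
  have h2 : ∀ i : Fin k, B i.succ 0 = 0 := by
    intro i
    change bp 0 _ - bp 0 _ = 0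
    rw [bp_zero, bp_zero, sub_self]
  have h3 : B 0 0 = 1 := bp_zero _
  rw [Finset.sum_eq_zero (fun i _ => by rw [h2, mul_zero, zero_mul])]
  rw [h3, Fin.val_zero, pow_zero, one_mul, one_mul, add_zero]
  congr 1

/-! ### Interlacing sets -/

lemma cnt_image {n : ℕ} (x : Fin n → ℤ) (hx : StrictMono x) (i : Fin n) (t : ℤ) :
    (i : ℕ) < cnt (univ.image x) t ↔ x i < t := by
  unfold cnt
  have h1 : ((univ.image x).filter (fun a => a < t)) = (univ.filter fun j => x j < t).image x := by
    ext a
    simp only [mem_filter, mem_image, mem_univ, true_and]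
    constructor
    · rintro ⟨⟨j, rfl⟩, h⟩
      exact ⟨j, h, rfl⟩
    · rintro ⟨j, h, rfl⟩
      exact ⟨⟨j, rfl⟩, h⟩
  rw [h1, Finset.card_image_of_injective _ hx.injective]
  constructor
  · intro h
    by_contra hc
    have h2 : (univ.filter fun j => x j < t) ⊆ Iio i := by
      intro j hj
      simp only [mem_filter, mem_univ, true_and] at hj
      rw [mem_Iio]
      by_contra hji
      exact hc (lt_of_le_of_lt (hx.monotone (not_lt.1 hji)) hj)
    have h3 := Finset.card_le_card h2
    rw [Fin.card_Iio] at h3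
    omega
  · intro h
    have h2 : Iic i ⊆ univ.filter fun j => x j < t := by
      intro j hj
      simp only [mem_filter, mem_univ, true_and]
      rw [mem_Iic] at hj
      exact lt_of_le_of_lt (hx.monotone hj) h
    have h3 := Finset.card_le_card h2
    rw [Fin.card_Iic] at h3
    omega

lemma cnt_le {n : ℕ} (x : Fin n → ℤ) (hx : StrictMono x) (t : ℤ) :
    cnt (univ.image x) t ≤ n := by
  have h1 : cnt (univ.image x) t ≤ (univ.image x).card := Finset.card_le_card (filter_subset _ _)
  rwa [Finset.card_image_of_injective _ hx.injective, Finset.card_univ, Fintype.card_fin] at h1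

lemma il_iff {k : ℕ} (x : Fin (k + 1) → ℤ) (hx : StrictMono x) (y : Fin k → ℤ)
    (hy : StrictMono y) :
    IL (univ.image y) (univ.image x) ↔ ∀ i : Fin k, x i.castSucc ≤ y i ∧ y i < x i.succ := by
  unfold IL
  rw [Finset.card_image_of_injective _ hx.injective, Finset.card_image_of_injective _ hy.injective,
    Finset.card_univ, Finset.card_univ, Fintype.card_fin, Fintype.card_fin]
  constructor
  · rintro ⟨-, h⟩ i
    constructor
    · by_contra hc
      push Not at hc
      have h1 : (i : ℕ) < cnt (univ.image y) (x i.castSucc) := (cnt_image y hy i _).2 hc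
      have h2 := (h (x i.castSucc)).1
      have h3 : ((i.castSucc : Fin (k + 1)) : ℕ) < cnt (univ.image x) (x i.castSucc) := by
        rw [Fin.val_castSucc]; omega
      exact lt_irrefl _ ((cnt_image x hx _ _).1 h3)
    · by_contra hc
      push Not at hc
      have h1 : ((i.succ : Fin (k + 1)) : ℕ) < cnt (univ.image x) (x i.succ + 1) :=
        (cnt_image x hx _ _).2 (lt_add_one _)
      have h2 := (h (x i.succ)).2
      rw [Fin.val_succ] at h1
      have h3 : (i : ℕ) < cnt (univ.image y) (x i.succ) := by omega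
      exact absurd ((cnt_image y hy _ _).1 h3) (not_lt.2 hc)
  · intro h
    refine ⟨rfl, fun t => ⟨?_, ?_⟩⟩
    · by_contra hc
      push Not at hc
      have h1 := cnt_le y hy t
      have hk : cnt (univ.image x) t < k := by omega
      have h2 : y ⟨cnt (univ.image x) t, hk⟩ < t := (cnt_image y hy ⟨_, hk⟩ t).1 hc
      have h3 := lt_of_le_of_lt (h ⟨cnt (univ.image x) t, hk⟩).1 h2
      have h4 := (cnt_image x hx _ _).2 h3
      rw [Fin.val_castSucc] at h4
      exact lt_irrefl _ h4
    · by_contra hc
      push Not at hc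
      have h1 := cnt_le x hx (t + 1)
      have hk : cnt (univ.image y) t < k := by omega
      have h2 : ((Fin.succ ⟨cnt (univ.image y) t, hk⟩ : Fin (k + 1)) : ℕ) <
          cnt (univ.image x) (t + 1) := by
        rw [Fin.val_succ]
        exact hc
      have h3 := (cnt_image x hx _ _).1 h2
      have h4 := (h ⟨cnt (univ.image y) t, hk⟩).2
      have h5 : y ⟨cnt (univ.image y) t, hk⟩ < t := by omega
      have h6 := (cnt_image y hy _ _).2 h5
      exact lt_irrefl _ h6

open Classical in
/-- **C1**: the sum over the interlacing sets. -/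
theorem c1 : StmC1 := by
  intro lo hi X hX hne
  obtain ⟨k, hk⟩ : ∃ k, X.card = k + 1 := ⟨X.card - 1, by
    have := hne.card_pos
    omega⟩
  set x : Fin (k + 1) → ℤ := ⇑(X.orderEmbOfFin hk) with hxdef
  have hx : StrictMono x := (X.orderEmbOfFin hk).strictMono
  have hXx : X = univ.image x := (Finset.image_orderEmbOfFin_univ X hk).symm
  have hxmem : ∀ i, x i ∈ Ico lo hi := fun i => hX (Finset.orderEmbOfFin_mem X hk i)
  rw [hXx, tt_image x hx, det_step]
  have hA : (Matrix.of fun i j : Fin k => bp (j + 1) (x i.succ) - bp (j + 1) (x i.castSucc)) =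
      (fun i : Fin k => ∑ a ∈ Ico (x i.castSucc) (x i.succ), fun j : Fin k => bp j a) := by
    ext i j
    rw [Finset.sum_apply, sum_bp _ _ _ (hx (Fin.castSucc_lt_succ)).le]
    rfl
  have hdet := (Matrix.detRowAlternating (n := Fin k) (R := ℝ)).toMultilinearMap.map_sum_finset
    (fun (_ : Fin k) (a : ℤ) (j : Fin k) => bp j a)
    (fun i => Ico (x i.castSucc) (x i.succ))
  have hdet' : (Matrix.of fun i j : Fin k =>
      bp (j + 1) (x i.succ) - bp (j + 1) (x i.castSucc)).det =
      ∑ y ∈ Fintype.piFinset (fun i : Fin k => Ico (x i.castSucc) (x i.succ)),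
        (Matrix.of fun i j : Fin k => bp j (y i)).det := by
    rw [hA]
    exact hdet
  rw [hdet']
  have hmono : ∀ y ∈ Fintype.piFinset (fun i : Fin k => Ico (x i.castSucc) (x i.succ)),
      StrictMono y := by
    intro y hy i j hij
    rw [Fintype.mem_piFinset] at hy
    have h1 := mem_Ico.1 (hy i)
    have h2 := mem_Ico.1 (hy j)
    have h3 : x i.succ ≤ x j.castSucc := by
      apply hx.monotone
      rw [Fin.le_def, Fin.val_succ, Fin.val_castSucc]
      exact hij
    omega
  refine Finset.sum_bij (fun y _ => univ.image y) ?_ ?_ ?_ ?_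
  · intro y hy
    rw [mem_filter, mem_powerset]
    have hy' := hy
    rw [Fintype.mem_piFinset] at hy'
    constructor
    · intro a ha
      rw [mem_image] at ha
      obtain ⟨i, -, rfl⟩ := ha
      have h1 := mem_Ico.1 (hy' i)
      have h2 := mem_Ico.1 (hxmem i.castSucc)
      have h3 := mem_Ico.1 (hxmem i.succ)
      rw [mem_Ico]
      omega
    · rw [il_iff x hx y (hmono y hy)]
      intro i
      exact mem_Ico.1 (hy' i)
  · intro y hy y' hy' h
    have h1 : Set.range y = Set.range y' := by
      have := congrArg (fun s : Finset ℤ => (s : Set ℤ)) h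
      simpa using this
    exact (StrictMono.range_inj (hmono y hy) (hmono y' hy')).1 h1
  · intro Y hY
    rw [mem_filter, mem_powerset] at hY
    obtain ⟨-, hIL⟩ := hY
    have hcard : Y.card = k := by
      have h1 := hIL.1
      rw [Finset.card_image_of_injective _ hx.injective, Finset.card_univ,
        Fintype.card_fin] at h1
      omega
    set y : Fin k → ℤ := ⇑(Y.orderEmbOfFin hcard) with hydef
    have hy : StrictMono y := (Y.orderEmbOfFin hcard).strictMono
    have hYy : univ.image y = Y := Finset.image_orderEmbOfFin_univ Y hcard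
    refine ⟨y, ?_, hYy⟩
    rw [← hYy, il_iff x hx y hy] at hIL
    rw [Fintype.mem_piFinset]
    intro i
    exact mem_Ico.2 (hIL i)
  · intro y hy
    exact (tt_image y (hmono y hy)).symm

end Pool.Agent.K3h33.Loz
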